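import Pool.Agent.Q250.Tern3Rep

/-!
MP_fb76f8_nt, Q1: `T_x + T_y + 6 T_z` represents exactly the admissible numbers.
-/

set_option autoImplicit false

namespace Pool.Agent.Results.MP_fb76f8_nt.TriangularSix

/-- `n` is represented as `x(x-1)/2 + y(y-1)/2 + 6 z(z-1)/2` (all divisions are exact). -/
def Represented (n : ℕ) : Prop :=
  ∃ x y z : ℤ, (n : ℤ) = x * (x - 1) / 2 + y * (y - 1) / 2 + 6 * (z * (z - 1) / 2)

/-- `n ≢ 2·3^(2r-1) - 1 (mod 3^(2r))` for every `r ≥ 1`. -/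
def Admissible (n : ℕ) : Prop :=
  ∀ r : ℕ, 1 ≤ r → ¬ ((n : ℤ) ≡ 2 * 3 ^ (2 * r - 1) - 1 [ZMOD 3 ^ (2 * r)])

open Q250.Tern3

theorem pow_aux (k : ℕ) : (2 : ℤ) * 3 ^ (2 * (k + 1) - 1) = 6 * 9 ^ k ∧
    (3 : ℤ) ^ (2 * (k + 1)) = 9 * 9 ^ k := by
  have h1 : 2 * (k + 1) - 1 = 2 * k + 1 := by omega
  have h2 : (9 : ℤ) ^ k = 3 ^ (2 * k) := by rw [pow_mul]; norm_num
  constructor
  · rw [h1, pow_succ, h2]; ring
  · rw [h2, show 2 * (k + 1) = 2 * k + 2 by ring, pow_add]; ring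

theorem adm_iff (n : ℕ) : Admissible n ↔ Adm (n + 1) := by
  constructor
  · intro h k t ht
    apply h (k + 1) (by omega)
    obtain ⟨h1, h2⟩ := pow_aux k
    rw [h1, h2]
    have h3 : (n : ℤ) + 1 = 9 ^ k * (9 * t + 6) := by exact_mod_cast ht
    apply Int.ModEq.symm
    rw [Int.modEq_iff_dvd]
    exact ⟨t, by linear_combination h3⟩
  · intro h r hr hm
    obtain ⟨k, rfl⟩ : ∃ k, r = k + 1 := ⟨r - 1, by omega⟩
    obtain ⟨h1, h2⟩ := pow_aux k
    rw [h1, h2] at hm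
    obtain ⟨t, ht⟩ := (Int.modEq_iff_dvd.1 hm.symm)
    have h9 : (0 : ℤ) < 9 ^ k := by positivity
    have e : (n : ℤ) + 1 = 9 ^ k * (9 * t + 6) := by linear_combination ht
    have ht0 : 0 ≤ t := by
      by_contra hc
      push Not at hc
      nlinarith
    obtain ⟨t', rfl⟩ := Int.eq_ofNat_of_zero_le ht0
    exact h k t' (by exact_mod_cast e)

/-- **Q1 answered in the positive.** -/
theorem result : ∀ n : ℕ, Represented n ↔ Admissible n := by
  intro n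
  rw [adm_iff]
  constructor
  · rintro ⟨x, y, z, e⟩
    apply adm_of_rep _ (Nat.succ_ne_zero n)
    refine ⟨2 * x - 1, 2 * y - 1, 2 * z - 1, ?_⟩
    have par : ∀ x : ℤ, x * (x - 1) = 2 * (x * (x - 1) / 2) := by
      intro x
      have : (2 : ℤ) ∣ x * (x - 1) := by
        rcases Int.even_or_odd x with ⟨q, hq⟩ | ⟨q, hq⟩
        · exact ⟨q * (x - 1), by rw [hq]; ring⟩
        · exact ⟨x * q, by rw [hq]; ring⟩
      omega
    push_cast
    rw [e]
    linear_combination -4 * par x - 4 * par y - 24 * par z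
  · intro h
    exact rep_tri h

end Pool.Agent.Results.MP_fb76f8_nt.TriangularSix
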